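import Mathlib
import Pool.Agent.Helper72.LN.Main

set_option autoImplicit false

namespace Pool.Agent.Results.MP_cf641d_an.ManhattanRigid

open Pool.Agent.Helper23K9.LR

/-- Question 2: for every `d ≥ 2` the space `ℝ^d` with the Manhattan distance `∑ |x_i - y_i|` is Lipschitz-free
rigid: every surjective linear isometry `T` of the Lipschitz-free space `𝓕(ℝ^d)` is `ε T_φ` for a sign `ε`
and a surjective dilation `φ`. More generally, every real normed space of finite dimension at least `2` is
Lipschitz-free rigid. -/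
theorem result :
    (∀ d : ℕ, 2 ≤ d →
      (∀ x y : PiLp 1 (fun _ : Fin d => ℝ), dist x y = ∑ i, |x i - y i|) ∧
      LipFreeRigid (PiLp 1 (fun _ : Fin d => ℝ))) ∧
    ∀ (E : Type*) [NormedAddCommGroup E] [NormedSpace ℝ E] [FiniteDimensional ℝ E],
      2 ≤ Module.finrank ℝ E → LipFreeRigid E := by
  refine ⟨fun d hd => ⟨fun x y => ?_, ?_⟩, fun E _ _ _ h => Pool.Agent.Helper72.LN.rigid h⟩
  · rw [PiLp.dist_eq_of_L1]
    simp only [Real.dist_eq]
  · apply Pool.Agent.Helper72.LN.rigid
    have h1 : Module.finrank ℝ (PiLp 1 (fun _ : Fin d => ℝ)) = Module.finrank ℝ (Fin d → ℝ) :=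
      (WithLp.linearEquiv 1 ℝ (Fin d → ℝ)).finrank_eq
    rw [h1, Module.finrank_fin_fun]
    exact hd

end Pool.Agent.Results.MP_cf641d_an.ManhattanRigid
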